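import Pool.Agent.V1139.SL2.Three

set_option autoImplicit false

open Matrix Module

namespace Pool.Agent.Results.MP_a7ee28_al.ThirdElement

open Pool.Agent.V1139.Leonard Pool.Agent.V1139.Three

/-- `q PR - q⁻¹ RP = (q - q⁻¹) I`. -/
def QComm {K V : Type} [Field K] [AddCommGroup V] [Module K V] (q : K)
    (P R : Module.End K V) : Prop :=
  q • (P * R) - q⁻¹ • (R * P) = (q - q⁻¹) • (1 : Module.End K V)

/-- `X, Y, Z` give an irreducible `U_q(sl2)`-module structure on `V` (equitable presentation). -/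
def IsIrreducibleUq {K V : Type} [Field K] [AddCommGroup V] [Module K V] (q : K)
    (X Y Z : Module.End K V) : Prop :=
  IsUnit X ∧ QComm q X Y ∧ QComm q Y Z ∧ QComm q Z X ∧
    ∀ W : Submodule K V, W.map X ≤ W → W.map Y ≤ W → W.map Z ≤ W → W = ⊥ ∨ W = ⊤

/-- `T` is a linear combination of `I, X, Y, XY`. -/
def IsComb {K V : Type} [Field K] [AddCommGroup V] [Module K V]
    (T X Y : Module.End K V) : Prop :=
  ∃ a b c e : K, T = a • 1 + b • X + c • Y + e • (X * Y)

/-- `s` is a (`K`-linear, bijective) antiautomorphism of `End(V)`. -/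
def IsAntiAutomorphism {K V : Type} [Field K] [AddCommGroup V] [Module K V]
    (s : Module.End K V → Module.End K V) : Prop :=
  IsLinearMap K s ∧ Function.Bijective s ∧ ∀ X Y : Module.End K V, s (X * Y) = s Y * s X

section
variable {K : Type} [Field K]

def mX (q r I : K) : Matrix (Fin 3) (Fin 3) K :=
  !![r ^ 2, -((1 - r ^ 2) * (1 - I * q) / 2), 0; 0, 1, -((q ^ 2 - 1) * (1 - I * r) / 2); 0, 0, q ^ 2]
def mY (q r : K) : Matrix (Fin 3) (Fin 3) K := !![q ^ 2, 0, 0; 0, 1, 0; 0, 0, r ^ 2]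
def mZ (q r I : K) : Matrix (Fin 3) (Fin 3) K :=
  !![r ^ 2, 0, 0; 2 * (1 - r ^ 2) * (1 + I * q), 1, 0; 0, 2 * (q ^ 2 - 1) * (1 + I * r), q ^ 2]

theorem rel1 [CharZero K] (q r I : K) (h : q * r = 1) :
    q • (mX q r I * mY q r) - r • (mY q r * mX q r I) = (q - r) • 1 := by
  ext i j
  fin_cases i <;> fin_cases j <;> simp [mX, mY] <;> grind

theorem rel2 [CharZero K] (q r I : K) (h : q * r = 1) :
    q • (mY q r * mZ q r I) - r • (mZ q r I * mY q r) = (q - r) • 1 := by
  ext i j
  fin_cases i <;> fin_cases j <;> simp [mZ, mY] <;> grind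

theorem rel3 [CharZero K] (q r I : K) (h : q * r = 1) (hI : I ^ 2 = -1) :
    q • (mZ q r I * mX q r I) - r • (mX q r I * mZ q r I) = (q - r) • 1 := by
  ext i j
  fin_cases i <;> fin_cases j <;> simp [mZ, mX] <;> grind

def mA (K : Type) [Field K] : Matrix (Fin 3) (Fin 3) K := !![2, 1, 0; 0, 0, 1; 0, 0, -2]
def mB (K : Type) [Field K] : Matrix (Fin 3) (Fin 3) K := !![2, 0, 0; -4, 0, 0; 0, -4, -2]
def mC (K : Type) [Field K] : Matrix (Fin 3) (Fin 3) K := !![4, 2, 0; -8, -8, -2; 0, 8, 4]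

/-- The operator of a matrix. -/
noncomputable def op (M : Matrix (Fin 3) (Fin 3) K) : Module.End K (Fin 3 → K) :=
  Matrix.toLinAlgEquiv' M

theorem op_apply (M : Matrix (Fin 3) (Fin 3) K) (v : Fin 3 → K) (i : Fin 3) :
    op M v i = M i 0 * v 0 + M i 1 * v 1 + M i 2 * v 2 := by
  unfold op
  rw [Matrix.toLinAlgEquiv'_apply]
  simp [Matrix.mulVec, dotProduct, Fin.sum_univ_three]

theorem op_mul (M N : Matrix (Fin 3) (Fin 3) K) : op (M * N) = op M * op N := map_mul _ _ _
theorem op_add (M N : Matrix (Fin 3) (Fin 3) K) : op (M + N) = op M + op N := map_add _ _ _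
theorem op_sub (M N : Matrix (Fin 3) (Fin 3) K) : op (M - N) = op M - op N := map_sub _ _ _
theorem op_smul (a : K) (M : Matrix (Fin 3) (Fin 3) K) : op (a • M) = a • op M :=
  map_smul (Matrix.toLinAlgEquiv' (R := K) (n := Fin 3)) _ _
theorem op_one : op (1 : Matrix (Fin 3) (Fin 3) K) = 1 := map_one _
theorem op_inj {M N : Matrix (Fin 3) (Fin 3) K} (h : op M = op N) : M = N :=
  (Matrix.toLinAlgEquiv' (R := K) (n := Fin 3)).injective h

theorem comb_iff (T X Y : Matrix (Fin 3) (Fin 3) K) : IsComb (op T) (op X) (op Y) ↔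
    ∃ a b c e : K, T = a • 1 + b • X + c • Y + e • (X * Y) := by
  unfold IsComb
  constructor
  · rintro ⟨a, b, c, e, h⟩
    refine ⟨a, b, c, e, op_inj ?_⟩
    rw [h, op_add, op_add, op_add, op_smul, op_smul, op_smul, op_smul, op_mul, op_one]
  · rintro ⟨a, b, c, e, h⟩
    refine ⟨a, b, c, e, ?_⟩
    rw [h, op_add, op_add, op_add, op_smul, op_smul, op_smul, op_smul, op_mul, op_one]

variable [CharZero K]

theorem combA (q r I c : K) (h : q * r = 1) (hI : I ^ 2 = -1) (hc : c * (q ^ 2 - r ^ 2) = 2) :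
    IsComb (op (mA K)) (op (mX q r I)) (op (mY q r)) := by
  rw [comb_iff]
  refine ⟨I * c * q, -c, c, -(I * c * q), ?_⟩
  ext i j
  fin_cases i <;> fin_cases j <;> simp [mX, mY, mA] <;> grind

theorem combB (q r I c : K) (h : q * r = 1) (hI : I ^ 2 = -1) (hc : c * (q ^ 2 - r ^ 2) = 2) :
    IsComb (op (mB K)) (op (mY q r)) (op (mZ q r I)) := by
  rw [comb_iff]
  refine ⟨-(I * c * q), c, -c, I * c * q, ?_⟩
  ext i j
  fin_cases i <;> fin_cases j <;> simp [mZ, mY, mB] <;> grind

theorem notcomb (q r I : K) (h : q * r = 1) (hI : I ^ 2 = -1) (hq : q + r ≠ 0) :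
    ¬ IsComb (op (mC K)) (op (mZ q r I)) (op (mX q r I)) := by
  rw [comb_iff]
  rintro ⟨s0, s1, s2, s3, hh⟩
  have e01 := congrFun (congrFun hh 0) 1
  have e12 := congrFun (congrFun hh 1) 2
  have e10 := congrFun (congrFun hh 1) 0
  have e21 := congrFun (congrFun hh 2) 1
  simp [mZ, mX, mC] at e01 e12 e10 e21
  have hI0 : I ≠ 0 := by
    rintro rfl
    norm_num at hI
  have f1 : (s2 + s3 * r ^ 2) * (q ^ 2 - r ^ 2) = -4 * (1 + I * q) := by
    linear_combination 2 * (1 + I * q) * e01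
      + (s2 + s3 * r ^ 2) * ((q * r + 1) * h + (1 - r ^ 2) * q ^ 2 * hI)
  have f2 : (s2 + s3) * (q ^ 2 - r ^ 2) = 4 * (1 + I * r) := by
    linear_combination 2 * (1 + I * r) * e12
      + (s2 + s3) * (-(q * r + 1) * h + (q ^ 2 - 1) * r ^ 2 * hI)
  have f3 : (s1 + s3 * r ^ 2) * (q ^ 2 - r ^ 2) = -4 * (1 - I * q) := by
    linear_combination (-(1 - I * q) / 2) * e10
      + (s1 + s3 * r ^ 2) * ((q * r + 1) * h + (1 - r ^ 2) * q ^ 2 * hI)
  have f4 : (s1 + s3) * (q ^ 2 - r ^ 2) = 4 * (1 - I * r) := by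
    linear_combination (-(1 - I * r) / 2) * e21
      + (s1 + s3) * (-(q * r + 1) * h + (q ^ 2 - 1) * r ^ 2 * hI)
  have f5 : 8 * (I * (q + r)) = 0 := by linear_combination f1 - f2 - f3 + f4
  have := (mul_eq_zero.mp f5).resolve_left (by norm_num)
  exact mul_ne_zero hI0 hq this

omit [CharZero K] in
theorem unitX (q r I : K) (h : q * r = 1) : IsUnit (op (mX q r I)) := by
  have h1 : IsUnit (mX q r I) := by
    rw [Matrix.isUnit_iff_isUnit_det]
    have : (mX q r I).det = 1 := by
      rw [Matrix.det_fin_three]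
      simp [mX]
      linear_combination (q * r + 1) * h
    rw [this]
    exact isUnit_one
  exact h1.map (Matrix.toLinAlgEquiv' (R := K) (n := Fin 3))

omit [CharZero K] in
theorem step (M : Matrix (Fin 3) (Fin 3) K) (W : Submodule K (Fin 3 → K))
    (hM : W.map (op M) ≤ W) (i j : Fin 3) (hij : M i j ≠ 0)
    (h0 : ∀ k, k ≠ i → k ≠ j → M k j = 0) (hne : i ≠ j)
    (hj : (Pi.single j 1 : Fin 3 → K) ∈ W) : (Pi.single i 1 : Fin 3 → K) ∈ W := by
  have h3 := W.sub_mem (hM ⟨_, hj, rfl⟩) (W.smul_mem (M j j) hj)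
  have h4 := W.smul_mem (M i j)⁻¹ h3
  have : (M i j)⁻¹ • (op M (Pi.single j 1) - M j j • (Pi.single j 1 : Fin 3 → K))
      = Pi.single i 1 := by
    have hcol : ∀ k, op M (Pi.single j 1) k = M k j := by
      intro k
      rw [op_apply]
      fin_cases j <;> simp
    funext k
    simp only [Pi.smul_apply, Pi.sub_apply, smul_eq_mul, hcol]
    by_cases hki : k = i
    · subst hki
      simp [Pi.single_apply, hne, inv_mul_cancel₀ hij]
    · by_cases hkj : k = j
      · subst hkj
        simp [Pi.single_apply, hki]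
      · simp [Pi.single_apply, hki, hkj, h0 k hki hkj]
  rwa [this] at h4

omit [CharZero K] in
theorem irred (q r I : K) (h2' : (2 : K) ≠ 0) (h : q * r = 1) (hI : I ^ 2 = -1) (h1 : q ^ 2 ≠ 1)
    (h2 : q ^ 2 ≠ -1)
    (W : Submodule K (Fin 3 → K)) (hX : W.map (op (mX q r I)) ≤ W)
    (hY : W.map (op (mY q r)) ≤ W) (hZ : W.map (op (mZ q r I)) ≤ W) : W = ⊥ ∨ W = ⊤ := by
  have hr1 : r ^ 2 ≠ 1 := by
    intro h'; apply h1; grind
  have hqr : q ^ 2 - r ^ 2 ≠ 0 := by
    intro h'
    have : (q ^ 2 - 1) * (q ^ 2 + 1) = 0 := by grind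
    rcases mul_eq_zero.mp this with h3 | h3
    · exact h1 (by linear_combination h3)
    · exact h2 (by linear_combination h3)
  have u1 : 1 - I * q ≠ 0 := by
    intro h'; apply h2; grind
  have u2 : 1 + I * q ≠ 0 := by
    intro h'; apply h2; grind
  have u3 : 1 - I * r ≠ 0 := by
    intro h'; apply h2; grind
  have u4 : 1 + I * r ≠ 0 := by
    intro h'; apply h2; grind
  have v1 : 1 - r ^ 2 ≠ 0 := sub_ne_zero.mpr (Ne.symm hr1)
  have v2 : q ^ 2 - 1 ≠ 0 := sub_ne_zero.mpr h1
  have s10 : (Pi.single 0 1 : Fin 3 → K) ∈ W → (Pi.single 1 1 : Fin 3 → K) ∈ W :=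
    step (mZ q r I) W hZ 1 0 (by
      simp only [mZ]
      simpa using ⟨⟨h2', v1⟩, u2⟩) (by
      intro k; fin_cases k <;> simp [mZ]) (by decide)
  have s21 : (Pi.single 1 1 : Fin 3 → K) ∈ W → (Pi.single 2 1 : Fin 3 → K) ∈ W :=
    step (mZ q r I) W hZ 2 1 (by
      simp only [mZ]
      simpa using ⟨⟨h2', v2⟩, u4⟩) (by
      intro k; fin_cases k <;> simp [mZ]) (by decide)
  have s01 : (Pi.single 1 1 : Fin 3 → K) ∈ W → (Pi.single 0 1 : Fin 3 → K) ∈ W :=
    step (mX q r I) W hX 0 1 (by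
      simp only [mX]
      simpa using ⟨⟨v1, u1⟩, h2'⟩) (by
      intro k; fin_cases k <;> simp [mX]) (by decide)
  have s12 : (Pi.single 2 1 : Fin 3 → K) ∈ W → (Pi.single 1 1 : Fin 3 → K) ∈ W :=
    step (mX q r I) W hX 1 2 (by
      simp only [mX]
      simpa using ⟨⟨v2, u3⟩, h2'⟩) (by
      intro k; fin_cases k <;> simp [mX]) (by decide)
  by_cases hW : W = ⊥
  · exact Or.inl hW
  right
  obtain ⟨v, hv, hv0⟩ := W.ne_bot_iff.mp hW
  have hYv : ∀ w ∈ W, ∀ a : K, op (mY q r) w - a • w ∈ W := fun w hw a =>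
    W.sub_mem (hY ⟨w, hw, rfl⟩) (W.smul_mem a hw)
  have key : ∀ (k : Fin 3) (a b c : K), c ≠ 0 →
      (op (mY q r) (op (mY q r) v - a • v) - b • (op (mY q r) v - a • v)
        = c • (Pi.single k 1 : Fin 3 → K)) → (Pi.single k 1 : Fin 3 → K) ∈ W := by
    intro k a b c hc he
    have h3 := hYv _ (hYv v hv a) b
    rw [he] at h3
    have h4 := W.smul_mem c⁻¹ h3
    rwa [smul_smul, inv_mul_cancel₀ hc, one_smul] at h4
  have hall : (Pi.single 1 1 : Fin 3 → K) ∈ W := by
    by_cases h0 : v 0 = 0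
    · by_cases h1' : v 1 = 0
      · have h2'' : v 2 ≠ 0 := by
          intro h2''
          apply hv0
          funext k
          fin_cases k
          · exact h0
          · exact h1'
          · exact h2''
        apply s12
        apply key 2 (q ^ 2) 1 ((r ^ 2 - 1) * (r ^ 2 - q ^ 2) * v 2)
        · refine mul_ne_zero (mul_ne_zero ?_ ?_) h2''
          · exact sub_ne_zero.mpr hr1
          · intro h'; apply hqr; linear_combination -h'
        · funext k
          fin_cases k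
          · simp [op_apply, mY, h0]
          · simp [op_apply, mY, h1']
          · simp [op_apply, mY]; ring
      · apply key 1 (q ^ 2) (r ^ 2) ((1 - q ^ 2) * (1 - r ^ 2) * v 1)
        · refine mul_ne_zero (mul_ne_zero ?_ v1) h1'
          intro h'; apply v2; linear_combination -h'
        · funext k
          fin_cases k
          · simp [op_apply, mY, h0]
          · simp [op_apply, mY]; ring
          · simp [op_apply, mY]; ring
    · apply s10
      apply key 0 1 (r ^ 2) ((q ^ 2 - 1) * (q ^ 2 - r ^ 2) * v 0)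
      · exact mul_ne_zero (mul_ne_zero v2 hqr) h0
      · funext k
        fin_cases k
        · simp [op_apply, mY]; ring
        · simp [op_apply, mY]
        · simp [op_apply, mY]; ring
  rw [eq_top_iff]
  intro w _
  have h5 : w = w 0 • (Pi.single 0 1 : Fin 3 → K) + w 1 • (Pi.single 1 1 : Fin 3 → K)
      + w 2 • (Pi.single 2 1 : Fin 3 → K) := by
    funext k
    fin_cases k <;> simp
  rw [h5]
  exact W.add_mem (W.add_mem (W.smul_mem _ (s01 hall)) (W.smul_mem _ hall))
    (W.smul_mem _ (s21 hall))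

omit [CharZero K] in
theorem mats (c : Basis (Fin 3) K (Fin 3 → K)) (v : Fin 3 → Fin 3 → K) (hc : ∀ i, c i = v i)
    (M : Matrix (Fin 3) (Fin 3) K) (N : Matrix (Fin 3) (Fin 3) K)
    (h : ∀ j k, M k 0 * v j 0 + M k 1 * v j 1 + M k 2 * v j 2
      = N 0 j * v 0 k + N 1 j * v 1 k + N 2 j * v 2 k) :
    LinearMap.toMatrix c c (op M) = N := by
  apply mat_of
  intro j
  funext k
  rw [Fin.sum_univ_three, hc, hc, hc, hc, op_apply, h j k]
  simp

theorem triple : IsLeonardTriple (op (mA K)) (op (mB K)) (op (mC K)) := by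
  refine ⟨?_, ?_, ?_⟩
  · obtain ⟨c, hc⟩ := exists_bas (![![1, 0, 0], ![1, -2, 0], ![1, -4, 8]] : Fin 3 → Fin 3 → K) (by
      apply li_of
      intro x0 x1 x2 h
      have r0 := h 0
      have r1 := h 1
      have r2 := h 2
      simp at r0 r1 r2
      subst r2
      simp at r1
      subst r1
      simp at r0
      exact ⟨r0, rfl, rfl⟩)
    refine ⟨3, c, ?_, ?_, ?_⟩
    · rw [mats c _ hc (mA K) !![2, 0, 0; 0, 0, 0; 0, 0, -2] (by
        intro j k
        fin_cases j <;> fin_cases k <;> simp [mA] <;> norm_num)]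
      exact diag3 _ _ _
    · rw [mats c _ hc (mB K) !![0, 1, 0; 2, 0, 2; 0, 1, 0] (by
        intro j k
        fin_cases j <;> fin_cases k <;> simp [mB] <;> norm_num)]
      exact irr3 _ _ _ _ _ _ _ (by norm_num) (by norm_num) (by norm_num) (by norm_num)
    · rw [mats c _ hc (mC K) !![0, 2, 0; 4, 0, -4; 0, -2, 0] (by
        intro j k
        fin_cases j <;> fin_cases k <;> simp [mC] <;> norm_num)]
      exact irr3 _ _ _ _ _ _ _ (by norm_num) (by norm_num) (by norm_num) (by norm_num)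
  · obtain ⟨c, hc⟩ := exists_bas (![![1, -2, 2], ![0, 1, -2], ![0, 0, 1]] : Fin 3 → Fin 3 → K) (by
      apply li_of
      intro x0 x1 x2 h
      have r0 := h 0
      have r1 := h 1
      have r2 := h 2
      simp at r0 r1 r2
      subst r0
      simp at r1
      subst r1
      simp at r2
      exact ⟨rfl, rfl, r2⟩)
    refine ⟨3, c, ?_, ?_, ?_⟩
    · rw [mats c _ hc (mB K) !![2, 0, 0; 0, 0, 0; 0, 0, -2] (by
        intro j k
        fin_cases j <;> fin_cases k <;> simp [mB] <;> norm_num)]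
      exact diag3 _ _ _
    · rw [mats c _ hc (mA K) !![0, 1, 0; 2, 0, 1; 0, 2, 0] (by
        intro j k
        fin_cases j <;> fin_cases k <;> simp [mA] <;> norm_num)]
      exact irr3 _ _ _ _ _ _ _ (by norm_num) (by norm_num) (by norm_num) (by norm_num)
    · rw [mats c _ hc (mC K) !![0, 2, 0; 4, 0, -2; 0, -4, 0] (by
        intro j k
        fin_cases j <;> fin_cases k <;> simp [mC] <;> norm_num)]
      exact irr3 _ _ _ _ _ _ _ (by norm_num) (by norm_num) (by norm_num) (by norm_num)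
  · obtain ⟨c, hc⟩ := exists_bas
      (![![-1, 0, 4], ![-1, 2, -4], ![-1, 4, -4]] : Fin 3 → Fin 3 → K) (by
      apply li_of
      intro x0 x1 x2 h
      have r0 := h 0
      have r1 := h 1
      have r2 := h 2
      simp at r0 r1 r2
      have e0 : (8 : K) * x0 = 0 := by linear_combination r2 - 4 * r0
      have e0' : x0 = 0 := (mul_eq_zero.mp e0).resolve_left (by norm_num)
      subst e0'
      have e2 : (2 : K) * x2 = 0 := by linear_combination r1 + 2 * r0
      have e2' : x2 = 0 := (mul_eq_zero.mp e2).resolve_left (by norm_num)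
      subst e2'
      exact ⟨rfl, by linear_combination -r0, rfl⟩)
    refine ⟨3, c, ?_, ?_, ?_⟩
    · rw [mats c _ hc (mC K) !![4, 0, 0; 0, 0, 0; 0, 0, -4] (by
        intro j k
        fin_cases j <;> fin_cases k <;> simp [mC] <;> norm_num)]
      exact diag3 _ _ _
    · rw [mats c _ hc (mA K) !![0, 1, 0; 2, 0, -2; 0, -1, 0] (by
        intro j k
        fin_cases j <;> fin_cases k <;> simp [mA] <;> norm_num)]
      exact irr3 _ _ _ _ _ _ _ (by norm_num) (by norm_num) (by norm_num) (by norm_num)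
    · rw [mats c _ hc (mB K) !![0, 1, 0; 2, 0, 2; 0, 1, 0] (by
        intro j k
        fin_cases j <;> fin_cases k <;> simp [mB] <;> norm_num)]
      exact irr3 _ _ _ _ _ _ _ (by norm_num) (by norm_num) (by norm_num) (by norm_num)

omit [CharZero K] in
theorem anticomm : op (mC K) = op (mA K) * op (mB K) + op (mB K) * op (mA K) := by
  rw [← op_mul, ← op_mul, ← op_add]
  congr 1
  ext i j
  fin_cases i <;> fin_cases j <;> simp [mA, mB, mC] <;> norm_num

omit [CharZero K] in
theorem qcomm_of (q r : K) (hr : r = q⁻¹) (P R : Matrix (Fin 3) (Fin 3) K)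
    (h : q • (P * R) - r • (R * P) = (q - r) • 1) : QComm q (op P) (op R) := by
  unfold QComm
  rw [← hr, ← op_mul, ← op_mul, ← op_smul, ← op_smul, ← op_sub, h, op_smul, op_one]

end

/-- The negated form of Q1 for the field `K` and the parameter `q`. -/
def Q1Fails (K : Type) [Field K] (q : K) : Prop :=
  ∃ A B C X Y Z : Module.End K (Fin 3 → K), IsLeonardTriple A B C ∧ IsIrreducibleUq q X Y Z ∧
    IsComb A X Y ∧ IsComb B Y Z ∧ ¬ IsComb C Z X ∧
    ∀ s : Module.End K (Fin 3 → K) → Module.End K (Fin 3 → K), IsAntiAutomorphism s →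
      s A = A → s B = B → ¬ IsComb (s C) Z X

/-- Let `K` be a field of characteristic zero containing a square root `I` of `-1` and let `q`
be any nonzero element of `K` that is not a root of unity.  Then Q1 fails for `q`, with
`dim V = 3`. -/
theorem result (K : Type) [Field K] [CharZero K] (I : K) (hI : I ^ 2 = -1) (q : K)
    (hq : q ≠ 0) (hroot : ∀ n : ℕ, 0 < n → q ^ n ≠ 1) : Q1Fails K q := by
  obtain ⟨r, hr⟩ : ∃ r, r = q⁻¹ := ⟨_, rfl⟩
  have h : q * r = 1 := by rw [hr]; exact mul_inv_cancel₀ hq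
  have h1 : q ^ 2 ≠ 1 := hroot 2 (by norm_num)
  have h2 : q ^ 2 ≠ -1 := by
    intro h'
    apply hroot 4 (by norm_num)
    linear_combination (q ^ 2 - 1) * h'
  have hqr : q ^ 2 - r ^ 2 ≠ 0 := by
    intro h'
    have : (q ^ 2 - 1) * (q ^ 2 + 1) = 0 := by grind
    rcases mul_eq_zero.mp this with h3 | h3
    · exact h1 (by linear_combination h3)
    · exact h2 (by linear_combination h3)
  have hqr' : q + r ≠ 0 := by
    intro h'
    apply hqr
    linear_combination (q - r) * h'
  obtain ⟨c, hc⟩ : ∃ c, c * (q ^ 2 - r ^ 2) = 2 := ⟨2 / (q ^ 2 - r ^ 2), div_mul_cancel₀ _ hqr⟩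
  refine ⟨op (mA K), op (mB K), op (mC K), op (mX q r I), op (mY q r), op (mZ q r I), triple,
    ⟨unitX q r I h, qcomm_of q r hr _ _ (rel1 q r I h), qcomm_of q r hr _ _ (rel2 q r I h),
      qcomm_of q r hr _ _ (rel3 q r I h hI), irred q r I two_ne_zero h hI h1 h2⟩,
    combA q r I c h hI hc, combB q r I c h hI hc, notcomb q r I h hI hqr', ?_⟩
  intro s hs hA hB
  have : s (op (mC K)) = op (mC K) := by
    rw [anticomm, hs.1.map_add, hs.2.2, hs.2.2, hA, hB, add_comm]
  rw [this]
  exact notcomb q r I h hI hqr'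

end Pool.Agent.Results.MP_a7ee28_al.ThirdElement
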